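import Pool.Agent.H626R3.CT.Stmts

set_option autoImplicit false

open scoped Classical

namespace Pool.Agent.H584R3.TKer

open Pool.Agent.H626R3.CT

theorem fin_est {Y : Type} (k : Y → Y → ℂ) (C : ℝ) (N : ℕ) (hC : ∀ y' y, ‖k y' y‖ ≤ C)
    (h1 : ∀ y, {y' | k y' y ≠ 0}.Finite ∧ {y' | k y' y ≠ 0}.ncard ≤ N)
    (h2 : ∀ y', {y | k y' y ≠ 0}.Finite ∧ {y | k y' y ≠ 0}.ncard ≤ N) (f : L2 Y)
    (s : Finset Y) :
    ∑ y' ∈ s, ‖∑ y ∈ (h2 y').1.toFinset, k y' y * f y‖ ^ 2 ≤ (N * C) ^ 2 * ‖f‖ ^ 2 := by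
  have hN2 : ∀ y', ((h2 y').1.toFinset.card : ℝ) ≤ N := by
    intro y'
    rw [← Set.ncard_eq_toFinset_card _ (h2 y').1]
    exact_mod_cast (h2 y').2
  have hN1 : ∀ y, ((h1 y).1.toFinset.card : ℝ) ≤ N := by
    intro y
    rw [← Set.ncard_eq_toFinset_card _ (h1 y).1]
    exact_mod_cast (h1 y).2
  have hstep : ∀ y' ∈ s, ‖∑ y ∈ (h2 y').1.toFinset, k y' y * f y‖ ^ 2 ≤
      N * C ^ 2 * ∑ y ∈ (h2 y').1.toFinset, ‖f y‖ ^ 2 := by
    intro y' _
    have e1 : ‖∑ y ∈ (h2 y').1.toFinset, k y' y * f y‖ ≤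
        ∑ y ∈ (h2 y').1.toFinset, C * ‖f y‖ := by
      refine (norm_sum_le _ _).trans (Finset.sum_le_sum fun y _ => ?_)
      rw [norm_mul]
      exact mul_le_mul_of_nonneg_right (hC _ _) (norm_nonneg _)
    calc ‖∑ y ∈ (h2 y').1.toFinset, k y' y * f y‖ ^ 2
        ≤ (∑ y ∈ (h2 y').1.toFinset, C * ‖f y‖) ^ 2 := pow_le_pow_left₀ (norm_nonneg _) e1 2
      _ ≤ (h2 y').1.toFinset.card * ∑ y ∈ (h2 y').1.toFinset, (C * ‖f y‖) ^ 2 :=
          sq_sum_le_card_mul_sum_sq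
      _ ≤ N * ∑ y ∈ (h2 y').1.toFinset, (C * ‖f y‖) ^ 2 :=
          mul_le_mul_of_nonneg_right (hN2 y') (Finset.sum_nonneg fun _ _ => sq_nonneg _)
      _ = N * C ^ 2 * ∑ y ∈ (h2 y').1.toFinset, ‖f y‖ ^ 2 := by
          have e5 : ∑ y ∈ (h2 y').1.toFinset, (C * ‖f y‖) ^ 2 =
              C ^ 2 * ∑ y ∈ (h2 y').1.toFinset, ‖f y‖ ^ 2 := by
            rw [Finset.mul_sum]
            exact Finset.sum_congr rfl fun y _ => mul_pow _ _ _
          rw [e5, mul_assoc]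
  refine (Finset.sum_le_sum hstep).trans ?_
  rw [← Finset.mul_sum]
  let U : Finset Y := s.biUnion fun y' => (h2 y').1.toFinset
  have e2 : ∑ y' ∈ s, ∑ y ∈ (h2 y').1.toFinset, ‖f y‖ ^ 2 ≤ N * ∑ y ∈ U, ‖f y‖ ^ 2 := by
    have e3 : ∀ y' ∈ s, (∑ y ∈ (h2 y').1.toFinset, ‖f y‖ ^ 2 : ℝ) =
        ∑ y ∈ U, if k y' y ≠ 0 then ‖f y‖ ^ 2 else 0 := by
      intro y' hy'
      rw [← Finset.sum_filter]
      refine Finset.sum_congr ?_ fun _ _ => rfl
      ext y
      simp only [Set.Finite.mem_toFinset, Set.mem_ofPred_eq, Finset.mem_filter, U,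
        Finset.mem_biUnion]
      exact ⟨fun h => ⟨⟨y', hy', h⟩, h⟩, fun h => h.2⟩
    rw [Finset.sum_congr rfl e3, Finset.sum_comm, Finset.mul_sum]
    refine Finset.sum_le_sum fun y _ => ?_
    rw [← Finset.sum_filter, Finset.sum_const, nsmul_eq_mul]
    refine mul_le_mul_of_nonneg_right ?_ (sq_nonneg _)
    refine le_trans ?_ (hN1 y)
    have : (s.filter fun y' => k y' y ≠ 0) ⊆ (h1 y).1.toFinset := by
      intro y' h
      rw [Set.Finite.mem_toFinset]
      exact (Finset.mem_filter.1 h).2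
    exact_mod_cast Finset.card_le_card this
  have e4 : ∑ y ∈ U, ‖f y‖ ^ 2 ≤ ‖f‖ ^ 2 := by
    have := lp.sum_rpow_le_norm_rpow (p := 2) (by norm_num) f U
    simpa using this
  calc (N * C ^ 2) * ∑ y' ∈ s, ∑ y ∈ (h2 y').1.toFinset, ‖f y‖ ^ 2
      ≤ (N * C ^ 2) * (N * ∑ y ∈ U, ‖f y‖ ^ 2) := mul_le_mul_of_nonneg_left e2 (by positivity)
    _ ≤ (N * C ^ 2) * (N * ‖f‖ ^ 2) := by
        refine mul_le_mul_of_nonneg_left ?_ (by positivity)
        exact mul_le_mul_of_nonneg_left e4 (by positivity)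
    _ = _ := by ring

theorem ok : TKer := by
  intro Y k C N hC h1 h2
  have hmem : ∀ f : L2 Y, Memℓp (fun y' => ∑ y ∈ (h2 y').1.toFinset, k y' y * f y) 2 := by
    intro f
    refine memℓp_gen' (C := (N * C) ^ 2 * ‖f‖ ^ 2) fun s => ?_
    have := fin_est k C N hC h1 h2 f s
    simpa using this
  by_cases hY : Nonempty Y
  swap
  · exact ⟨0, fun y' => absurd ⟨y'⟩ hY⟩
  have hC0 : 0 ≤ C := by
    obtain ⟨y⟩ := hY
    exact (norm_nonneg _).trans (hC y y)
  let T0 : L2 Y →ₗ[ℂ] L2 Y :=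
    { toFun := fun f => ⟨_, hmem f⟩
      map_add' := fun f g => by
        ext y'
        change ∑ y ∈ (h2 y').1.toFinset, k y' y * (f + g : L2 Y) y =
          ∑ y ∈ (h2 y').1.toFinset, k y' y * f y + ∑ y ∈ (h2 y').1.toFinset, k y' y * g y
        rw [← Finset.sum_add_distrib]
        refine Finset.sum_congr rfl fun y _ => ?_
        rw [lp.coeFn_add, Pi.add_apply, mul_add]
      map_smul' := fun c f => by
        ext y'
        change ∑ y ∈ (h2 y').1.toFinset, k y' y * (c • f : L2 Y) y =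
          c • ∑ y ∈ (h2 y').1.toFinset, k y' y * f y
        rw [Finset.smul_sum]
        refine Finset.sum_congr rfl fun y _ => ?_
        rw [lp.coeFn_smul, Pi.smul_apply, smul_eq_mul, smul_eq_mul]
        ring }
  have hT0 : ∀ f : L2 Y, ∀ y', T0 f y' = ∑ y ∈ (h2 y').1.toFinset, k y' y * f y :=
    fun f y' => rfl
  refine ⟨T0.mkContinuous (N * C) fun f => ?_, fun y' y => ?_⟩
  · refine lp.norm_le_of_forall_sum_le (by norm_num) (by positivity) fun s => ?_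
    have := fin_est k C N hC h1 h2 f s
    simp only [hT0]
    rw [show ((2 : ENNReal).toReal) = ((2 : ℕ) : ℝ) by norm_num]
    simp only [Real.rpow_natCast]
    rw [mul_pow]
    exact this
  · unfold ent
    rw [LinearMap.mkContinuous_apply, dl, lp.inner_single_left, hT0]
    simp only [dl]
    by_cases h : k y' y = 0
    · rw [h]
      simp only [RCLike.inner_apply, map_one, mul_one]
      refine Finset.sum_eq_zero fun z hz => ?_
      rw [Set.Finite.mem_toFinset] at hz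
      have hne : z ≠ y := fun e => hz (e ▸ h)
      rw [lp.single_apply_ne _ _ _ hne, mul_zero]
    · rw [Finset.sum_eq_single y]
      · rw [lp.single_apply_self]
        simp
      · intro z _ hz
        rw [lp.single_apply_ne _ _ _ hz, mul_zero]
      · intro hz
        exact absurd ((h2 y').1.mem_toFinset.2 h) hz

end Pool.Agent.H584R3.TKer
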